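import Pool.Agent.H499R2.NDStep2

/-! Primes in trajectories, part B: the map `M ↦ (3 M - 1) / 2 ^ e`
(the Syracuse map on the negative odd integers, after a change of sign) and its words. -/

set_option autoImplicit false

namespace Pool.Agent.H48N

open Pool.Agent.H320R2.PD Pool.Agent.H499R2.ND Finset

/-- the exponent of `2` in `3 M - 1` -/
def vv (M : ℤ) : ℕ := padicValInt 2 (3 * M - 1)

/-- the Syracuse map -/
def Syr (M : ℤ) : ℤ := (3 * M - 1) / 2 ^ vv M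

theorem Syr_spec {M : ℤ} (hM : Odd M) : 3 * M - 1 = 2 ^ vv M * Syr M ∧ Odd (Syr M) ∧ 1 ≤ vv M := by
  have h0 : 3 * M - 1 ≠ 0 := by omega
  have hd : (2 : ℤ) ^ vv M ∣ 3 * M - 1 := by
    have := (padicValInt_dvd_iff (p := 2) (vv M) (3 * M - 1)).2 (Or.inr le_rfl)
    exact_mod_cast this
  have h1 : 3 * M - 1 = 2 ^ vv M * Syr M := by
    unfold Syr
    exact (Int.mul_ediv_cancel' hd).symm
  refine ⟨h1, ?_, ?_⟩
  · rw [← Int.not_even_iff_odd]
    rintro ⟨t, ht⟩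
    have h2 : (2 : ℤ) ^ (vv M + 1) ∣ 3 * M - 1 := ⟨t, by rw [h1, ht]; ring⟩
    have h3 := (padicValInt_dvd_iff (p := 2) (vv M + 1) (3 * M - 1)).1 (by exact_mod_cast h2)
    rcases h3 with h3 | h3
    · exact h0 h3
    · unfold vv at h3; omega
  · obtain ⟨t, ht⟩ := hM
    have h2 : (2 : ℤ) ^ 1 ∣ 3 * M - 1 := ⟨3 * t + 1, by rw [ht]; ring⟩
    have h3 := (padicValInt_dvd_iff (p := 2) 1 (3 * M - 1)).1 (by exact_mod_cast h2)
    rcases h3 with h3 | h3
    · exact absurd h3 h0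
    · exact h3

/-- the word of the first `k` steps of the Syracuse map, last letter first -/
def wrd : ℕ → ℤ → List ℕ
  | 0, _ => []
  | k + 1, M => vv (Syr^[k] M) :: wrd k M

theorem iter_odd {M : ℤ} (hM : Odd M) (k : ℕ) : Odd (Syr^[k] M) := by
  induction k with
  | zero => exact hM
  | succ k ih => rw [Function.iterate_succ_apply']; exact (Syr_spec ih).2.1

theorem wrd_length (k : ℕ) (M : ℤ) : (wrd k M).length = k := by
  induction k with
  | zero => rfl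
  | succ k ih => simp [wrd, ih]

theorem wrd_pos {M : ℤ} (hM : Odd M) (k : ℕ) : ∀ a ∈ wrd k M, 1 ≤ a := by
  induction k with
  | zero => simp [wrd]
  | succ k ih =>
    intro a ha
    rw [wrd, List.mem_cons] at ha
    rcases ha with rfl | ha
    · exact (Syr_spec (iter_odd hM k)).2.2
    · exact ih a ha

theorem wrd_id {M : ℤ} (hM : Odd M) (k : ℕ) :
    (3 : ℤ) ^ k * M - Wo (wrd k M) = 2 ^ (wrd k M).sum * Syr^[k] M := by
  induction k with
  | zero => simp [wrd, Wo]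
  | succ k ih =>
    have h1 := (Syr_spec (iter_odd hM k)).1
    rw [wrd, Wo, List.sum_cons, Function.iterate_succ_apply', pow_add]
    push_cast
    calc (3 : ℤ) ^ (k + 1) * M - (2 ^ (wrd k M).sum + 3 * Wo (wrd k M))
        = 3 * (3 ^ k * M - Wo (wrd k M)) - 2 ^ (wrd k M).sum := by ring
      _ = 2 ^ (wrd k M).sum * (3 * Syr^[k] M - 1) := by rw [ih]; ring
      _ = _ := by rw [h1]; ring

theorem wrd_unique {M x : ℤ} (hM : Odd M) (hx : Odd x) {k : ℕ} {w : List ℕ} (hl : w.length = k)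
    (hw : ∀ a ∈ w, 1 ≤ a) (h : (3 : ℤ) ^ k * M - Wo w = 2 ^ w.sum * x) :
    wrd k M = w ∧ Syr^[k] M = x := by
  have h1 := word_unique (d := -1) (by decide) (wrd k M) (wrd_pos hM k) w hw
    (by rw [wrd_length, hl]) M (Syr^[k] M) x (iter_odd hM k) hx
    (by unfold Vw; rw [wrd_length, ← wrd_id hM k]; ring)
    (by unfold Vw; rw [hl, ← h]; ring)
  refine ⟨h1, ?_⟩
  have h2 := wrd_id hM k
  rw [h1, h] at h2
  exact (mul_left_cancel₀ (by positivity : (2 : ℤ) ^ w.sum ≠ 0) h2).symm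

theorem wrd_add (j k : ℕ) (M : ℤ) : wrd (j + k) M = wrd j (Syr^[k] M) ++ wrd k M := by
  induction j with
  | zero => simp [wrd]
  | succ j ih =>
    rw [Nat.succ_add, wrd, wrd, ih, ← Function.iterate_add_apply]
    rfl

/-- odd integers in `[a,b)` congruent to `c` mod `3^m` -/
noncomputable def Ow (a b : ℝ) (m : ℕ) (c : ℤ) : Finset ℤ :=
  (Ico ⌈a⌉ ⌈b⌉).filter fun x => Odd x ∧ (3 : ℤ) ^ m ∣ x - c

theorem mem_Ow {a b : ℝ} {m : ℕ} {c x : ℤ} :
    x ∈ Ow a b m c ↔ (a ≤ x ∧ (x : ℝ) < b) ∧ Odd x ∧ (3 : ℤ) ^ m ∣ x - c := by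
  unfold Ow; rw [mem_filter, mem_win]

/-- the endpoints of the word `w` from starting points in `Ow a b m c` -/
noncomputable def Ew (a b : ℝ) (k m : ℕ) (c : ℤ) (w : List ℕ) : Finset ℤ :=
  (Ico ⌈(3 ^ k * a - Wo w) / 2 ^ w.sum⌉ ⌈(3 ^ k * b - Wo w) / 2 ^ w.sum⌉).filter fun x =>
    Odd x ∧ (3 : ℤ) ^ (k + m) ∣ 2 ^ w.sum * x - (3 ^ k * c - Wo w)

theorem mem_Ew {a b : ℝ} {k m : ℕ} {c x : ℤ} {w : List ℕ} :
    x ∈ Ew a b k m c w ↔ ((3 ^ k * a - Wo w) / 2 ^ w.sum ≤ x ∧ (x : ℝ) < (3 ^ k * b - Wo w) / 2 ^ w.sum) ∧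
      Odd x ∧ (3 : ℤ) ^ (k + m) ∣ 2 ^ w.sum * x - (3 ^ k * c - Wo w) := by
  unfold Ew; rw [mem_filter, mem_win]

/-- one word -/
theorem sum_word {a b : ℝ} (k m : ℕ) (c : ℤ) {w : List ℕ} (hl : w.length = k)
    (hw : ∀ e ∈ w, 1 ≤ e) (F : ℤ → ℝ) :
    ∑ M ∈ (Ow a b m c).filter (fun M => wrd k M = w), F (Syr^[k] M) = ∑ x ∈ Ew a b k m c w, F x := by
  have h2 : (0 : ℝ) < 2 ^ w.sum := by positivity
  have h2z : (0 : ℤ) < 2 ^ w.sum := by positivity
  have h3 : (0 : ℝ) < 3 ^ k := by positivity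
  have h3z : (0 : ℤ) < 3 ^ k := by positivity
  apply sum_nbij' (fun M => Syr^[k] M) (fun x => (2 ^ w.sum * x + Wo w) / 3 ^ k)
  · intro M hM
    rw [mem_filter, mem_Ow] at hM
    obtain ⟨⟨⟨h4, h5⟩, h6, t, ht⟩, h7⟩ := hM
    have hid := wrd_id h6 k
    rw [h7] at hid
    have hidR : (3 : ℝ) ^ k * M - Wo w = 2 ^ w.sum * ((Syr^[k] M : ℤ) : ℝ) := by exact_mod_cast hid
    rw [mem_Ew]
    refine ⟨⟨?_, ?_⟩, iter_odd h6 k, t, ?_⟩
    · rw [div_le_iff₀ h2]
      have := mul_le_mul_of_nonneg_left h4 h3.le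
      linarith
    · rw [lt_div_iff₀ h2]
      have := mul_lt_mul_of_pos_left h5 h3
      linarith
    · rw [← hid, pow_add]
      calc (3 : ℤ) ^ k * M - Wo w - (3 ^ k * c - Wo w) = 3 ^ k * (M - c) := by ring
        _ = _ := by rw [ht]; ring
  · intro x hx
    rw [mem_Ew] at hx
    obtain ⟨⟨h4, h5⟩, h6, t, ht⟩ := hx
    have hdv : (3 : ℤ) ^ k ∣ 2 ^ w.sum * x + Wo w := by
      refine ⟨c + 3 ^ m * t, ?_⟩
      rw [pow_add] at ht
      linear_combination ht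
    obtain ⟨M, hM⟩ := hdv
    rw [hM, Int.mul_ediv_cancel_left _ h3z.ne']
    have hid : (3 : ℤ) ^ k * M - Wo w = 2 ^ w.sum * x := by linarith
    have hidR : (3 : ℝ) ^ k * M - Wo w = 2 ^ w.sum * (x : ℝ) := by exact_mod_cast hid
    have hMo : Odd M := by
      rcases eq_or_ne w [] with rfl | hne
      · simp at hl; subst hl; simp [Wo] at hid; rw [hid]; exact h6
      · exact Vw_odd_left (d := -1) (by decide) hw hne (x := x) (by unfold Vw; rw [hl, ← hid]; ring)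
    rw [mem_filter, mem_Ow]
    refine ⟨⟨⟨?_, ?_⟩, hMo, t, ?_⟩, (wrd_unique hMo h6 hl hw hid).1⟩
    · rw [div_le_iff₀ h2] at h4
      have : 3 ^ k * a ≤ 3 ^ k * (M : ℝ) := by linarith
      exact le_of_mul_le_mul_left this h3
    · rw [lt_div_iff₀ h2] at h5
      have : 3 ^ k * (M : ℝ) < 3 ^ k * b := by linarith
      exact lt_of_mul_lt_mul_left this h3.le
    · have : (3 : ℤ) ^ k * (M - c) = 3 ^ k * (3 ^ m * t) := by
        rw [pow_add] at ht
        linear_combination ht - hM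
      exact mul_left_cancel₀ h3z.ne' this
  · intro M hM
    rw [mem_filter, mem_Ow] at hM
    obtain ⟨⟨_, h6, _⟩, h7⟩ := hM
    have hid := wrd_id h6 k
    rw [h7] at hid
    rw [← hid]
    rw [show (3 : ℤ) ^ k * M - Wo w + Wo w = 3 ^ k * M by ring]
    exact Int.mul_ediv_cancel_left _ h3z.ne'
  · intro x hx
    rw [mem_Ew] at hx
    obtain ⟨_, h6, t, ht⟩ := hx
    have hdv : (3 : ℤ) ^ k ∣ 2 ^ w.sum * x + Wo w := by
      refine ⟨c + 3 ^ m * t, ?_⟩
      rw [pow_add] at ht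
      linear_combination ht
    obtain ⟨M, hM⟩ := hdv
    rw [hM, Int.mul_ediv_cancel_left _ h3z.ne']
    have hid : (3 : ℤ) ^ k * M - Wo w = 2 ^ w.sum * x := by linarith
    have hMo : Odd M := by
      rcases eq_or_ne w [] with rfl | hne
      · simp at hl; subst hl; simp [Wo] at hid; rw [hid]; exact h6
      · exact Vw_odd_left (d := -1) (by decide) hw hne (x := x) (by unfold Vw; rw [hl, ← hid]; ring)
    exact (wrd_unique hMo h6 hl hw hid).2
  · intro M _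
    rfl

end Pool.Agent.H48N
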