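import Pool.Agent.H48C.Cnt
import Pool.Agent.H48N.Word

/-! Primes in trajectories of negative integers, part E: counting starting points by words. -/

set_option autoImplicit false

namespace Pool.Agent.H48N

open Finset Filter Pool.Agent.H320R2.PD Pool.Agent.H499R2.ND Pool.Agent.H373R2.T7
open Pool.Agent.H48C (PrZ PrZ.pos exists_n param_card cop23 not_dvd23 sig one_le_sig sig_mono pair_sieve)

open Classical in
/-- starting points with a given word and primes at two places -/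
theorem pair_word : ∃ C : ℝ, 1 ≤ C ∧ ∃ t0 : ℝ, 1 ≤ t0 ∧ ∀ A : ℝ, 0 < A → t0 ≤ Real.log A →
    ∀ (k j m : ℕ) (c : ℤ) (v w : List ℕ), w.length = k → v.length = j →
      (2 : ℝ) ^ ((v ++ w).sum) * 3 ^ m ≤ √A →
      (((Ow A (2 * A) m c).filter (fun M => wrd (j + k) M = v ++ w ∧ PrZ (Syr^[k] M) ∧
        PrZ (Syr^[j + k] M))).card : ℝ) ≤
        C * (sig ⌈A⌉₊ (Wo v) * (A / 3 ^ m * (wwt v * wwt w)) / Real.log A ^ 2) := by
  obtain ⟨C, hC, X0, hX0, h⟩ := pair_sieve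
  refine ⟨16 * C, by linarith, 4 * Real.log (4 * X0), ?_, ?_⟩
  · have : Real.log 3 ≤ Real.log (4 * X0) := by
      apply Real.log_le_log (by norm_num)
      have : (3 : ℝ) ≤ X0 := by exact_mod_cast hX0
      linarith
    have h3 := log3_ge
    have h2 := Real.log_two_gt_d9
    linarith
  intro A hA ht k j m c v w hw hv hsz
  have hX0R : (3 : ℝ) ≤ X0 := by exact_mod_cast hX0
  have hlogX0 : 0 < Real.log (4 * X0) := Real.log_pos (by linarith)
  have htpos : 0 < Real.log A := by linarith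
  set T := (v ++ w).sum with hT
  have hTs : T = v.sum + w.sum := by rw [hT, List.sum_append]
  set D := A / (2 * (2 ^ T * 3 ^ m)) with hD
  have hsA : 0 < √A := Real.sqrt_pos.2 hA
  have hsq : √A * √A = A := Real.mul_self_sqrt hA.le
  have hden : (0 : ℝ) < 2 ^ T * 3 ^ m := by positivity
  have hD1 : √A / 2 ≤ D := by
    rw [hD, div_le_div_iff₀ (by norm_num) (by positivity)]
    nlinarith
  set q := √(√A) with hqd
  have hqq : q * q = √A := Real.mul_self_sqrt hsA.le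
  have hlogA : Real.log A = 4 * Real.log q := by
    have : A = q ^ 4 := by rw [← hsq, ← hqq]; ring
    rw [this, Real.log_pow]; norm_num
  have hqpos : 0 < q := Real.sqrt_pos.2 hsA
  have hq4 : 4 * (X0 : ℝ) ≤ q := by
    rw [← Real.log_le_log_iff (by linarith) hqpos]
    linarith
  have hDq : q ≤ D := by nlinarith
  obtain ⟨X, hX⟩ : ∃ X : ℕ, X = ⌈D⌉₊ := ⟨_, rfl⟩
  have hX1 : D ≤ X := by rw [hX]; exact Nat.le_ceil _
  have hX2 : (X : ℝ) < D + 1 := by rw [hX]; exact Nat.ceil_lt_add_one (by linarith)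
  have hXX0 : X0 ≤ X := by
    have : (X0 : ℝ) ≤ X := by linarith
    exact_mod_cast this
  have hXA : X ≤ ⌈A⌉₊ := by
    rw [hX]
    apply Nat.ceil_le_ceil
    rw [hD]
    apply div_le_self hA.le
    have e1 : (1 : ℝ) ≤ 2 ^ T := one_le_pow₀ (by norm_num)
    have e2 : (1 : ℝ) ≤ 3 ^ m := one_le_pow₀ (by norm_num)
    nlinarith
  have hlogX : Real.log A / 4 ≤ Real.log X := by
    rw [hlogA]
    have : Real.log q ≤ Real.log X := Real.log_le_log hqpos (hDq.trans hX1)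
    linarith
  have hww : wwt v * wwt w = 1 / 2 ^ T := by
    unfold wwt
    rw [← pow_add, ← hTs]
    rw [one_div, one_div, inv_pow]
  have hX3 : (X : ℝ) ≤ A / 3 ^ m * (wwt v * wwt w) := by
    have : A / 3 ^ m * (wwt v * wwt w) = 2 * D := by
      rw [hww, hD]; field_simp
    rw [this]; linarith
  have hsigA := sig_mono hXA (Wo v)
  have hfinal : C * sig X (Wo v) * (X / Real.log X ^ 2) ≤
      16 * C * (sig ⌈A⌉₊ (Wo v) * (A / 3 ^ m * (wwt v * wwt w)) / Real.log A ^ 2) := by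
    have e1 : (X : ℝ) / Real.log X ^ 2 ≤ A / 3 ^ m * (wwt v * wwt w) / (Real.log A / 4) ^ 2 := by
      apply div_le_div₀ _ hX3 (by positivity)
      · exact pow_le_pow_left₀ (by positivity) hlogX 2
      · exact (Nat.cast_nonneg X).trans hX3
    have e2 := one_le_sig X (Wo v)
    calc C * sig X (Wo v) * (X / Real.log X ^ 2)
        ≤ C * sig ⌈A⌉₊ (Wo v) * (A / 3 ^ m * (wwt v * wwt w) / (Real.log A / 4) ^ 2) := by
          apply mul_le_mul _ e1 (by positivity) (by nlinarith)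
          exact mul_le_mul_of_nonneg_left hsigA (by linarith)
      _ = _ := by field_simp; ring
  set S := (Ow A (2 * A) m c).filter (fun M => wrd (j + k) M = v ++ w ∧ PrZ (Syr^[k] M) ∧
        PrZ (Syr^[j + k] M)) with hS
  rcases S.eq_empty_or_nonempty with h0 | hne
  · rw [h0, card_empty, Nat.cast_zero]
    have e2 := one_le_sig ⌈A⌉₊ (Wo v)
    have e3 : 0 ≤ A / 3 ^ m * (wwt v * wwt w) := (Nat.cast_nonneg X).trans hX3
    positivity
  obtain ⟨M0, hM0, hmin⟩ : ∃ x0 ∈ S, ∀ x ∈ S, x0 ≤ x := ⟨S.min' hne, S.min'_mem hne, fun x hx => S.min'_le x hx⟩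
  have hprop : ∀ M ∈ S, (A ≤ M ∧ (M : ℝ) < 2 * A) ∧ Odd M ∧ (3 : ℤ) ^ m ∣ M - c ∧ wrd (j + k) M = v ++ w ∧
      PrZ (Syr^[k] M) ∧ PrZ (Syr^[j + k] M) ∧ 3 ^ k * M - Wo w = 2 ^ w.sum * Syr^[k] M ∧
      3 ^ j * Syr^[k] M - Wo v = 2 ^ v.sum * Syr^[j + k] M ∧
      3 ^ (j + k) * M - Wo (v ++ w) = 2 ^ T * Syr^[j + k] M := by
    intro M hM
    rw [hS, mem_filter, mem_Ow] at hM
    obtain ⟨⟨h1, h2, h3⟩, h4, h5, h6⟩ := hM
    have h7 := h4
    rw [wrd_add] at h7
    obtain ⟨h8, h9⟩ := List.append_inj h7 (by rw [wrd_length, hv])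
    have i1 := wrd_id h2 k
    have i2 := wrd_id (iter_odd h2 k) j
    have i3 := wrd_id h2 (j + k)
    rw [h9] at i1
    rw [h8, ← Function.iterate_add_apply] at i2
    rw [h4, ← hT] at i3
    exact ⟨h1, h2, h3, h4, h5, h6, i1, i2, i3⟩
  obtain ⟨a1, a2, a3, a4, a5, a6, a7, a8, a9⟩ := hprop M0 hM0
  set y0 := Syr^[k] M0 with hy0
  set z0 := Syr^[j + k] M0 with hz0
  have hy0p := a5.pos
  have hz0p := a6.pos
  have hz0odd : Odd z0 := iter_odd a2 (j + k)
  have hq : (0 : ℤ) < 2 ^ (T + 1) * 3 ^ m := by positivity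
  have key := param_card hq (x0 := M0) X (fun n => (y0.toNat + 2 ^ (v.sum + 1) * 3 ^ (k + m) * n).Prime ∧
      (z0.toNat + 2 * 3 ^ (j + k + m) * n).Prime) (S := S) (by
    intro M hM
    obtain ⟨b1, b2, b3, b4, b5, b6, b7, b8, b9⟩ := hprop M hM
    have hzodd : Odd (Syr^[j + k] M) := iter_odd b2 (j + k)
    have hd2 : (2 : ℤ) ^ (T + 1) ∣ M - M0 := by
      obtain ⟨s, hs⟩ := (hzodd.sub_odd hz0odd).two_dvd
      have e1 : (2 : ℤ) ^ (T + 1) ∣ 3 ^ (j + k) * (M - M0) := by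
        refine ⟨s, ?_⟩
        rw [pow_succ]
        calc (3 : ℤ) ^ (j + k) * (M - M0) = (3 ^ (j + k) * M - Wo (v ++ w)) - (3 ^ (j + k) * M0 - Wo (v ++ w)) := by ring
          _ = 2 ^ T * (Syr^[j + k] M - z0) := by rw [b9, a9]; ring
          _ = _ := by rw [hs]; ring
      exact (cop23 (T + 1) (j + k)).dvd_of_dvd_mul_left e1
    have hd3 : (3 : ℤ) ^ m ∣ M - M0 := by
      have := dvd_sub b3 a3
      rwa [show M - c - (M0 - c) = M - M0 by ring] at this
    have hd : (2 : ℤ) ^ (T + 1) * 3 ^ m ∣ M - M0 := IsCoprime.mul_dvd (cop23 _ _) hd2 hd3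
    obtain ⟨n, hn, hMn⟩ := exists_n hq hd (hmin M hM) (D := A) (by linarith [b1.2, a1.1]) (N := X) (by
      push_cast
      rw [pow_succ]
      refine le_trans (le_of_eq ?_) hX1
      rw [hD]; congr 1; ring)
    refine ⟨n, hn, hMn, ?_, ?_⟩
    · have e1 : Syr^[k] M = y0 + 2 ^ (v.sum + 1) * 3 ^ (k + m) * n := by
        apply mul_left_cancel₀ (by positivity : (2 : ℤ) ^ w.sum ≠ 0)
        rw [← b7, mul_add, ← a7, hMn, hTs]
        ring
      unfold PrZ at b5
      have e2 : (Syr^[k] M).toNat = y0.toNat + 2 ^ (v.sum + 1) * 3 ^ (k + m) * n := by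
        zify
        rw [Int.toNat_of_nonneg hy0p.le, Int.toNat_of_nonneg (by rw [e1]; positivity), e1]
      rwa [e2] at b5
    · have e1 : Syr^[j + k] M = z0 + 2 * 3 ^ (j + k + m) * n := by
        apply mul_left_cancel₀ (by positivity : (2 : ℤ) ^ T ≠ 0)
        rw [← b9, mul_add, ← a9, hMn]
        ring
      unfold PrZ at b6
      have e2 : (Syr^[j + k] M).toNat = z0.toNat + 2 * 3 ^ (j + k + m) * n := by
        zify
        rw [Int.toNat_of_nonneg hz0p.le, Int.toNat_of_nonneg (by rw [e1]; positivity), e1]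
      rwa [e2] at b6)
  have hps := h X hXX0 y0.toNat (2 ^ (v.sum + 1) * 3 ^ (k + m)) z0.toNat (2 * 3 ^ (j + k + m)) (Wo v)
    (Nat.pos_of_ne_zero (by positivity)) (Nat.pos_of_ne_zero (by positivity))
    (fun p hp h5 => ⟨not_dvd23 hp h5 _ _, by simpa using not_dvd23 hp h5 1 (j + k + m)⟩) (by
      intro p hp h5 hdv
      rw [Int.toNat_of_nonneg hy0p.le, Int.toNat_of_nonneg hz0p.le] at hdv
      push_cast at hdv
      have e1 : (2 : ℤ) ^ (v.sum + 1) * 3 ^ (k + m) * z0 - 2 * 3 ^ (j + k + m) * y0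
          = -((2 ^ 1 * 3 ^ (k + m) : ℕ) * (Wo v : ℕ)) := by
        push_cast
        have e2 : (Wo v : ℤ) = 3 ^ j * y0 - 2 ^ v.sum * z0 := by linarith
        rw [e2]; ring
      rw [e1, dvd_neg] at hdv
      have e3 : p ∣ (2 ^ 1 * 3 ^ (k + m)) * Wo v := by exact_mod_cast hdv
      exact (hp.dvd_mul.1 e3).resolve_left (not_dvd23 hp h5 _ _))
  calc (S.card : ℝ) ≤ _ := by exact_mod_cast key
    _ ≤ _ := hps
    _ ≤ _ := hfinal

end Pool.Agent.H48N
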