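import Pool.Agent.H48N.Fin1

/-! Primes in trajectories of negative integers, part K: the Syracuse map on the negative odd integers. -/

set_option autoImplicit false

namespace Pool.Agent.H48N

open Finset Filter Pool.Agent.H320R2.PD Pool.Agent.H499R2.ND
open Pool.Agent.H48C (PrZ PrZ.pos GT mem_GT Thick thick_class)

/-- the Syracuse map on the odd integers -/
def SyZ (m : ℤ) : ℤ := (3 * m + 1) / 2 ^ padicValInt 2 (3 * m + 1)

theorem SyZ_neg {M : ℤ} (hM : Odd M) : SyZ (-M) = -Syr M := by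
  have h0 : 3 * -M + 1 = -(3 * M - 1) := by ring
  have h1 : padicValInt 2 (3 * -M + 1) = vv M := by
    rw [h0]; unfold vv padicValInt; rw [Int.natAbs_neg]
  unfold SyZ Syr
  rw [h1, h0]
  apply Int.neg_ediv_of_dvd
  exact ⟨Syr M, (Syr_spec hM).1⟩

theorem SyZ_iter (k : ℕ) : ∀ M : ℤ, Odd M → SyZ^[k] (-M) = -Syr^[k] M := by
  induction k with
  | zero => intro M _; rfl
  | succ k ih =>
    intro M hM
    rw [Function.iterate_succ_apply, Function.iterate_succ_apply, SyZ_neg hM, ih _ (Syr_spec hM).2.1]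

theorem oneStage_of_thick {P : ℤ → Prop} {κ0 : ℝ} {v : ℕ} {a' : ℤ} (hP : Thick P κ0 v a') :
    ∃ β : ℝ, 0 < β ∧ β ≤ 1 ∧ OneStage P β := by
  classical
  obtain ⟨φ, hφ, t3, ht3, h⟩ := one_stage hP
  refine ⟨min (2 * φ) 1, lt_min (by positivity) one_pos, min_le_right _ _, t3, ht3, ?_⟩
  intro A hA ht m c hm S hS
  have h1 := h A hA ht m c hm
  have h2 : S = (Ow A (2 * A) m c).filter
      (fun M => ∃ k : ℕ, (k : ℝ) ≤ Real.log A / 10 ∧ Ind P k M) := by
    ext M; rw [hS, mem_filter]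
  rw [h2]
  refine le_trans ?_ h1
  have h3 : min (2 * φ) 1 * (A / (2 * 3 ^ m)) ≤ (2 * φ) * (A / (2 * 3 ^ m)) :=
    mul_le_mul_of_nonneg_right (min_le_left _ _) (by positivity)
  refine h3.trans (le_of_eq ?_)
  field_simp

/-- positive values of the trajectories -/
theorem finset_nat {P : ℤ → Prop} {Q : ℕ → Prop} (hPQ : ∀ x : ℤ, P x → 0 < x ∧ Q x.toNat) {M : ℤ}
    (hM : Odd M) (F : Finset ℤ) (hF : ∀ x ∈ F, P x ∧ ∃ k, Syr^[k] M = x) :
    ∃ F' : Finset ℕ, F'.card = F.card ∧ ∀ p ∈ F', Q p ∧ ∃ k, SyZ^[k] (-M) = -(p : ℤ) := by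
  classical
  refine ⟨F.image Int.toNat, ?_, ?_⟩
  · apply card_image_of_injOn
    intro x hx y hy hxy
    have h1 := (hPQ x (hF x hx).1).1
    have h2 := (hPQ y (hF y hy).1).1
    have hxy' : x.toNat = y.toNat := hxy
    omega
  · intro p hp
    rw [mem_image] at hp
    obtain ⟨x, hx, rfl⟩ := hp
    obtain ⟨h1, k, hk⟩ := hF x hx
    obtain ⟨h2, h3⟩ := hPQ x h1
    refine ⟨h3, k, ?_⟩
    rw [SyZ_iter k M hM, hk]
    omega

/-- **primes in a residue class in the trajectories of a positive proportion of the negative odd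
integers** -/
theorem prime_part (q a : ℕ) (hq : 1 ≤ q) (ha : Nat.Coprime a q) : ∃ c : ℝ, 0 < c ∧ ∃ N0 : ℕ, ∀ N : ℕ, N0 ≤ N →
    c * N ≤ ({n : ℤ | Odd n ∧ -(N : ℤ) ≤ n ∧ n < 0 ∧ ∃ F : Finset ℕ, c * Real.log (Real.log N) ≤ F.card ∧
      ∀ p ∈ F, p.Prime ∧ p ≡ a [MOD q] ∧ ∃ k, SyZ^[k] n = -(p : ℤ)}.ncard : ℝ) := by
  classical
  obtain ⟨κ, v, a', hT⟩ := thick_class q a hq ha
  obtain ⟨β, hβ0, hβ1, hO⟩ := oneStage_of_thick hT
  obtain ⟨N0, hN0⟩ := many hβ0 hβ1 hO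
  refine ⟨β / 16, by positivity, max N0 100, fun N hN => ?_⟩
  have h1 := hN0 N ((le_max_left _ _).trans hN)
  have hN100 : 100 ≤ N := (le_max_right _ _).trans hN
  refine h1.trans ?_
  rw [Nat.cast_le]
  set G := (Ow ((N : ℝ) / 2) N 0 0).filter (fun M => ∃ F : Finset ℤ,
        β / 8 * Real.log (Real.log N) ≤ F.card ∧
          ∀ x ∈ F, (PrZ x ∧ x.toNat ≡ a [MOD q]) ∧ ∃ k, Syr^[k] M = x) with hG
  have hNR : (100 : ℝ) ≤ N := by exact_mod_cast hN100
  have hGp : ∀ M ∈ G, 0 < M ∧ M ≤ N := by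
    intro M hM
    rw [hG, mem_filter, mem_Ow] at hM
    obtain ⟨⟨⟨g1, g2⟩, _⟩, _⟩ := hM
    constructor
    · have : (0 : ℝ) < M := by linarith
      exact_mod_cast this
    · have : (M : ℝ) ≤ (N : ℤ) := by push_cast; exact g2.le
      exact_mod_cast this
  have hfin : {n : ℤ | Odd n ∧ -(N : ℤ) ≤ n ∧ n < 0 ∧ ∃ F : Finset ℕ, β / 16 * Real.log (Real.log N) ≤ F.card ∧
      ∀ p ∈ F, p.Prime ∧ p ≡ a [MOD q] ∧ ∃ k, SyZ^[k] n = -(p : ℤ)}.Finite :=
    (Set.finite_Icc (-(N : ℤ)) 0).subset fun n hn => ⟨hn.2.1, hn.2.2.1.le⟩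
  have hloglog : 0 ≤ Real.log (Real.log (N : ℝ)) := by
    apply Real.log_nonneg
    rw [Real.le_log_iff_exp_le (by linarith)]
    have := Real.exp_one_lt_d9
    linarith
  calc G.card = (G.image (fun M => -M)).card := by
        rw [card_image_of_injective _ neg_injective]
    _ = ((G.image (fun M => -M) : Finset ℤ) : Set ℤ).ncard := (Set.ncard_coe_finset _).symm
    _ ≤ _ := by
        apply Set.ncard_le_ncard _ hfin
        intro n hn
        rw [mem_coe, mem_image] at hn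
        obtain ⟨M, hM, rfl⟩ := hn
        obtain ⟨h2, h3⟩ := hGp M hM
        have hM' := hM
        rw [hG, mem_filter, mem_Ow] at hM'
        obtain ⟨⟨_, hodd, _⟩, F, hF1, hF2⟩ := hM'
        obtain ⟨F', hF'1, hF'2⟩ := finset_nat (P := fun x => PrZ x ∧ x.toNat ≡ a [MOD q])
          (Q := fun p => p.Prime ∧ p ≡ a [MOD q]) (fun x hx => ⟨hx.1.pos, hx.1, hx.2⟩) (M := M)
          hodd F hF2
        refine ⟨hodd.neg, by omega, by omega, F', ?_, fun p hp => ?_⟩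
        · rw [hF'1]
          refine le_trans ?_ hF1
          apply mul_le_mul_of_nonneg_right _ hloglog
          linarith
        · obtain ⟨g1, g2⟩ := hF'2 p hp
          exact ⟨g1.1, g1.2, g2⟩

end Pool.Agent.H48N
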