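import Pool.Agent.H48C.FM
import Pool.Agent.H48N.Cnt

/-! Primes in trajectories of negative integers, part G: the first moment. -/

set_option autoImplicit false

namespace Pool.Agent.H48N

open Finset Filter Pool.Agent.H320R2.PD Pool.Agent.H499R2.ND
open Pool.Agent.H48C (PrZ PrZ.pos GT mem_GT exists_word mass_cls size_bound mixG dev_sum btw Thick)

theorem sum_refl (W : Finset ℤ) (p q : ℤ → Prop) [DecidablePred p] [DecidablePred q] (f : ℤ → ℝ)
    (h : ∀ x, p (-x) ↔ q x) :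
    ∑ x ∈ (W.image (fun x => -x)).filter p, f (-x) = ∑ x ∈ W.filter q, f x := by
  apply sum_nbij' (fun x => -x) (fun x => -x)
  · intro x hx
    rw [mem_filter, mem_image] at hx
    obtain ⟨⟨y, hy, rfl⟩, h2⟩ := hx
    rw [mem_filter, neg_neg]
    exact ⟨hy, (h y).1 h2⟩
  · intro x hx
    rw [mem_filter] at hx
    rw [mem_filter, mem_image]
    exact ⟨⟨x, hx.1, rfl⟩, (h x).2 hx.2⟩
  · intro x _; exact neg_neg x
  · intro x _; exact neg_neg x
  · intro x _; rfl

theorem mixN {Ψ : ℤ → ℝ} {W : Finset ℤ} {K : ℝ} (A k m m' T : ℕ) (hm' : m' ≤ k) (c : ℤ)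
    (hK : ∀ r : ℤ, ∑ x ∈ W.filter (fun x => (3 : ℤ) ^ (k + m) ∣ 2 ^ T * x - r), |Ψ x| ≤ K) :
    |∑ w ∈ FWT A k T, ∑ x ∈ W.filter (fun x => (3 : ℤ) ^ (k + m) ∣ 2 ^ T * x - (3 ^ k * c - Wo w)), Ψ x
      - (∑ w ∈ FWT A k T, ∑ x ∈ W.filter (fun x => (3 : ℤ) ^ m' ∣ 2 ^ T * x + Wo w), Ψ x)
          / 3 ^ (k + m - m')|
      ≤ 2 ^ T * K * dev (FWT A k T) wwt (fun w => (Wo w : ℤ)) (k + m) m' := by
  have h := mixG (Ψ := fun x => Ψ (-x)) (W := W.image (fun x => -x)) (K := K) A k m m' T hm' (-c) (by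
    intro r
    refine le_trans (le_of_eq ?_) (hK (-r))
    apply sum_refl W _ _ (fun x => |Ψ x|)
    intro x
    rw [show (2 : ℤ) ^ T * -x - r = -(2 ^ T * x - -r) by ring, dvd_neg])
  refine le_trans (le_of_eq ?_) h
  congr 2
  · apply sum_congr rfl
    intro w _
    symm
    apply sum_refl
    intro x
    rw [show (2 : ℤ) ^ T * -x - ((Wo w : ℤ) + 3 ^ k * -c) = -(2 ^ T * x - (3 ^ k * c - Wo w)) by ring, dvd_neg]
  · congr 1
    apply sum_congr rfl
    intro w _
    symm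
    apply sum_refl
    intro x
    rw [show (2 : ℤ) ^ T * -x - (Wo w : ℤ) = -(2 ^ T * x + Wo w) by ring, dvd_neg]

open Classical in
/-- the first moment, one exponent -/
theorem first_moment_k {P : ℤ → Prop} {κ1 : ℝ} {v : ℕ} {a : ℤ} (hP : Thick P κ1 v a) :
    ∃ c1 : ℝ, 0 < c1 ∧ ∃ t1 : ℝ, 1 ≤ t1 ∧ ∀ A : ℝ, 0 < A → t1 ≤ Real.log A → ∀ (k m : ℕ) (c : ℤ),
    Real.log A / 20 - 1 ≤ k → (k : ℝ) ≤ Real.log A / 10 → (m : ℝ) ^ 2 ≤ Real.log A →
    c1 * ((A / 3 ^ m) / Real.log A) ≤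
      (((Ow A (2 * A) m c).filter (fun M => wrd k M ∈ GT k ∧ P (Syr^[k] M))).card : ℝ) := by
  obtain ⟨κ0, hκ01⟩ : ∃ κ0 : ℝ, κ0 = 0.9 * κ1 := ⟨_, rfl⟩
  have hκ1 := hP.pos
  have hκ0 : 0 < κ0 := by rw [hκ01]; positivity
  obtain ⟨μ, hμ, k1, hk11, hmass⟩ := mass_cls v (-a) (by rw [dvd_neg]; exact hP.unit)
  obtain ⟨Cb, hCb, hbt⟩ := btw
  obtain ⟨Cd, hCd, cd, hcd, hcd1, hdev⟩ := dev_sum 1
  obtain ⟨m', hm'1, hm'2⟩ : ∃ m' : ℕ, 1 ≤ m' ∧ 4 * Cb * Cd / (κ0 * μ) ≤ m' :=
    ⟨max 1 ⌈4 * Cb * Cd / (κ0 * μ)⌉₊, le_max_left _ _, (Nat.le_ceil _).trans (by exact_mod_cast le_max_right _ _)⟩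
  obtain ⟨L0, hL02, hpnt⟩ := hP.win m' hm'1
  refine ⟨κ0 * μ / 2, by positivity, max (max (520000 + 20 * (k1 + 1)) (2 * Real.log L0)) (max (20 * (m' + 1)) ((40 / cd) ^ 2)), ?_, ?_⟩
  · refine le_trans ?_ (le_max_left _ _)
    refine le_trans ?_ (le_max_left _ _)
    have : (0 : ℝ) ≤ k1 := Nat.cast_nonneg _
    linarith
  intro A hA ht k m c hk1 hk2 hm
  have ht1' : 520000 + 20 * ((k1 : ℝ) + 1) ≤ Real.log A := (le_max_left _ _).trans ((le_max_left _ _).trans ht)
  have hk1R : (0 : ℝ) ≤ k1 := Nat.cast_nonneg _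
  have ht1 : 520000 ≤ Real.log A := by linarith
  have ht2 : 2 * Real.log L0 ≤ Real.log A := (le_max_right _ _).trans ((le_max_left _ _).trans ht)
  have ht3 : 20 * ((m' : ℝ) + 1) ≤ Real.log A := (le_max_left _ _).trans ((le_max_right _ _).trans ht)
  have ht4 : (40 / cd) ^ 2 ≤ Real.log A := (le_max_right _ _).trans ((le_max_right _ _).trans ht)
  set t := Real.log A with htd
  have htpos : 0 < t := by linarith
  have hexpA : Real.exp t = A := Real.exp_log hA
  have hm'k : m' ≤ k := by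
    have : (m' : ℝ) ≤ k := by linarith
    exact_mod_cast this
  have hk25 : k1 ≤ k := by
    have : (k1 : ℝ) ≤ k := by linarith
    exact_mod_cast this
  have hk0 : 1 ≤ k := by omega
  have hkpos : (0 : ℝ) < k := by exact_mod_cast hk0
  have hmk : (m : ℝ) ≤ cd * k := by
    have h1 : (40 / cd) * (m : ℝ) ≤ t := by
      have h0 : (0 : ℝ) ≤ m := Nat.cast_nonneg _
      have h2 : 0 < 40 / cd := by positivity
      by_contra hcon
      push Not at hcon
      have h3 : t * t < (40 / cd * m) * (40 / cd * m) := mul_lt_mul'' hcon hcon htpos.le htpos.le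
      have h4 : (40 / cd * m) * (40 / cd * m) ≤ t * t := by
        calc (40 / cd * m) * (40 / cd * (m : ℝ)) = (40 / cd) ^ 2 * (m : ℝ) ^ 2 := by ring
          _ ≤ t * t := mul_le_mul ht4 hm (by positivity) htpos.le
      linarith
    rw [div_mul_eq_mul_div, div_le_iff₀ hcd] at h1
    have h5 : t ≤ 40 * k := by linarith
    nlinarith
  -- notation
  set R : ℝ := (3 / 2) ^ k with hR
  set L : ℕ → ℝ := fun T => A * 3 ^ k / 2 ^ T with hL
  set W : ℕ → Finset ℤ := fun T => (Ico ⌈L T⌉ ⌈2 * L T - R⌉).filter (fun x => Odd x) with hW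
  set Ψ : ℤ → ℝ := fun x => if P x then 1 else 0 with hΨ
  have hΨ0 : ∀ x, 0 ≤ Ψ x := by intro x; rw [hΨ]; simp only; split_ifs <;> norm_num
  -- sizes
  have hsz : ∀ T : ℕ, 20 * T ≤ 41 * k → (2 : ℝ) ^ T * 3 ^ m ≤ Real.exp (t / 4) := fun T hT =>
    size_bound (by linarith) hk2 hm hT
  have hbig : (400 : ℝ) ≤ Real.exp (t / 4) := by
    have := Real.add_one_le_exp (t / 4)
    linarith
  have hA4 : Real.exp (t / 4) ^ 4 = A := by
    rw [← Real.exp_nat_mul, ← hexpA]
    congr 1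
    push_cast; ring
  set E := Real.exp (t / 4) with hE
  have hEpos : 0 < E := Real.exp_pos _
  have hE2A : E ^ 3 ≤ A := by
    rw [← hA4, pow_succ E 3]
    exact le_mul_of_one_le_right (by positivity) (by linarith)
  have hL3 : ∀ T : ℕ, 20 * T ≤ 41 * k → 39 * k ≤ 20 * T → E ^ 3 ≤ L T / 3 ^ (k + m) ∧ 2 * L0 ≤ L T ∧ R ≤ L T / 10 ∧
      L T / 3 ^ (k + m) = A / (2 ^ T * 3 ^ m) ∧ L T ≤ A := by
    intro T hT hT2
    have h1 := hsz T hT
    have e1 : L T / 3 ^ (k + m) = A / (2 ^ T * 3 ^ m) := by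
      rw [hL]; simp only; rw [pow_add]; field_simp
    have hp : (0 : ℝ) < 2 ^ T * 3 ^ m := by positivity
    have h2 : E ^ 3 ≤ A / (2 ^ T * 3 ^ m) := by
      rw [le_div_iff₀ hp, ← hA4, pow_succ E 3]
      exact mul_le_mul_of_nonneg_left h1 (by positivity)
    have h3 : E ^ 3 * 3 ^ (k + m) ≤ L T := by
      rw [← e1, le_div_iff₀ (by positivity)] at h2
      exact h2
    have h3k : (1 : ℝ) ≤ 3 ^ (k + m) := one_le_pow₀ (by norm_num)
    have h4 : E ^ 3 ≤ L T := by
      refine le_trans ?_ h3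
      exact le_mul_of_one_le_right (by positivity) h3k
    refine ⟨by rw [e1]; exact h2, ?_, ?_, e1, ?_⟩
    · refine le_trans ?_ h4
      have h5 : L0 ≤ Real.exp (t / 2) := by
        rw [← Real.log_le_iff_le_exp (by linarith)]; linarith
      have h6 : Real.exp (t / 2) = E ^ 2 := by
        rw [hE, ← Real.exp_nat_mul]; congr 1; push_cast; ring
      rw [h6] at h5
      have h7 : E ^ 3 = E * E ^ 2 := by ring
      rw [h7]
      have h8 : 0 < E ^ 2 := by positivity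
      nlinarith
    · rw [le_div_iff₀ (by norm_num)]
      refine le_trans ?_ h3
      rw [hR]
      have h5 : (3 / 2 : ℝ) ^ k ≤ 3 ^ (k + m) := by
        calc (3 / 2 : ℝ) ^ k ≤ 3 ^ k := pow_le_pow_left₀ (by norm_num) (by norm_num) k
          _ ≤ 3 ^ (k + m) := pow_le_pow_right₀ (by norm_num) (by omega)
      have h6 : (10 : ℝ) ≤ E ^ 3 := by
        calc (10 : ℝ) ≤ 400 ^ 3 := by norm_num
          _ ≤ E ^ 3 := pow_le_pow_left₀ (by norm_num) hbig 3
      calc (3 / 2 : ℝ) ^ k * 10 ≤ 3 ^ (k + m) * E ^ 3 := mul_le_mul h5 h6 (by norm_num) (by positivity)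
        _ = _ := by ring
    · rw [hL]; simp only
      rw [div_le_iff₀ (by positivity)]
      apply mul_le_mul_of_nonneg_left _ hA.le
      have h5 : ((3 : ℝ) ^ k) ^ 20 ≤ (2 ^ T) ^ 20 := by
        rw [← pow_mul, ← pow_mul]
        calc (3 : ℝ) ^ (k * 20) = (3 ^ 20) ^ k := by rw [← pow_mul, mul_comm]
          _ ≤ (2 ^ 39) ^ k := pow_le_pow_left₀ (by norm_num) (by norm_num) k
          _ = 2 ^ (39 * k) := by rw [← pow_mul]
          _ ≤ 2 ^ (T * 20) := pow_le_pow_right₀ (by norm_num) (by omega)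
      exact le_of_pow_le_pow_left₀ (by norm_num) (by positivity) h5
  -- step 1
  have step1 : (((Ow A (2 * A) m c).filter (fun M => wrd k M ∈ GT k ∧ P (Syr^[k] M))).card : ℝ)
      = ∑ w ∈ GT k, ∑ x ∈ Ew A (2 * A) k m c w, Ψ x := by
    have h1 : (((Ow A (2 * A) m c).filter (fun M => wrd k M ∈ GT k ∧ P (Syr^[k] M))).card : ℝ)
        = ∑ M ∈ (Ow A (2 * A) m c).filter (fun M => wrd k M ∈ GT k), Ψ (Syr^[k] M) := by
      rw [← filter_filter, hΨ]
      simp only
      rw [sum_boole]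
    rw [h1, ← sum_fiberwise_of_maps_to (t := GT k) (g := wrd k) (fun M hM => (mem_filter.1 hM).2)]
    apply sum_congr rfl
    intro w hw
    obtain ⟨hl, he⟩ := FW_props (mem_GT.1 hw).1
    rw [← sum_word k m c hl he]
    apply sum_congr _ (fun _ _ => rfl)
    ext M
    simp only [mem_filter]
    constructor
    · rintro ⟨⟨g1, g2⟩, g3⟩; exact ⟨g1, g3⟩
    · rintro ⟨g1, g3⟩; exact ⟨⟨g1, by rw [g3]; exact hw⟩, g3⟩
  rw [step1]
  -- step 2
  have step2 : ∑ w ∈ GT k, ∑ x ∈ (W w.sum).filter (fun x => (3 : ℤ) ^ (k + m) ∣ 2 ^ w.sum * x - (3 ^ k * c - Wo w)), Ψ x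
      ≤ ∑ w ∈ GT k, ∑ x ∈ Ew A (2 * A) k m c w, Ψ x := by
    apply sum_le_sum
    intro w hw
    obtain ⟨hl, he⟩ := FW_props (mem_GT.1 hw).1
    apply sum_le_sum_of_subset_of_nonneg _ (fun x _ _ => hΨ0 x)
    intro x hx
    rw [hW] at hx
    simp only [mem_filter, mem_win] at hx
    obtain ⟨⟨⟨g1, g2⟩, g3⟩, g4⟩ := hx
    rw [mem_Ew]
    have h2 : (0 : ℝ) < 2 ^ w.sum := by positivity
    have hWo := Wo_le he
    rw [hl] at hWo
    refine ⟨⟨?_, ?_⟩, g3, g4⟩
    · rw [sub_div]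
      refine le_trans ?_ g1
      have e1 : 3 ^ k * A / 2 ^ w.sum = L w.sum := by rw [hL]; simp only; ring
      rw [e1]
      have : (0 : ℝ) ≤ (Wo w : ℝ) / 2 ^ w.sum := by positivity
      linarith
    · refine lt_of_lt_of_le g2 ?_
      rw [sub_div]
      have e1 : 3 ^ k * (2 * A) / 2 ^ w.sum = 2 * L w.sum := by rw [hL]; simp only; ring
      rw [e1]
      have : (Wo w : ℝ) / 2 ^ w.sum ≤ R := by
        rw [div_le_iff₀ h2, hR]
        nlinarith
      linarith
  refine le_trans ?_ step2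
  -- step 3
  set κ := 2 * Cb * ((A / 3 ^ m) / t) with hκ
  have hAm : 0 < A / 3 ^ m := by positivity
  have hκpos : 0 < κ := by positivity
  unfold GT
  rw [sum_GW]
  have hTT : ∀ T ∈ Icc ((39 * k + 19) / 20) (41 * k / 20), 20 * T ≤ 41 * k ∧ 39 * k ≤ 20 * T := by
    intro T hT; rw [mem_Icc] at hT; omega
  set g : List ℕ → ℝ := fun w => if (3 : ℤ) ^ v ∣ 2 ^ w.sum * -a - Wo w then κ0 * ((A / 3 ^ m) / t) * wwt w else 0 with hg
  have step3 : ∀ T ∈ Icc ((39 * k + 19) / 20) (41 * k / 20),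
      ∑ w ∈ FWT (3 * k) k T, g w
        - κ * dev (FWT (3 * k) k T) wwt (fun w => (Wo w : ℤ)) (k + m) m' ≤
      ∑ w ∈ FWT (3 * k) k T, ∑ x ∈ (W w.sum).filter (fun x => (3 : ℤ) ^ (k + m) ∣ 2 ^ w.sum * x - (3 ^ k * c - Wo w)), Ψ x := by
    intro T hT
    obtain ⟨hT1, hT2⟩ := hTT T hT
    obtain ⟨g1, g2, g3, g4, g5⟩ := hL3 T hT1 hT2
    have hsum : ∀ w ∈ FWT (3 * k) k T, w.sum = T := fun w hw => by
      unfold FWT at hw; exact (mem_filter.1 hw).2
    have e1 : ∑ w ∈ FWT (3 * k) k T, ∑ x ∈ (W w.sum).filter (fun x => (3 : ℤ) ^ (k + m) ∣ 2 ^ w.sum * x - (3 ^ k * c - Wo w)), Ψ x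
        = ∑ w ∈ FWT (3 * k) k T, ∑ x ∈ (W T).filter (fun x => (3 : ℤ) ^ (k + m) ∣ 2 ^ T * x - (3 ^ k * c - Wo w)), Ψ x :=
      sum_congr rfl fun w hw => by rw [hsum w hw]
    rw [e1]
    set H := (2 * L T - R - L T) / (2 * 3 ^ (k + m)) with hH
    have hLpos : 0 < L T := by linarith
    have hHup : H ≤ (A / (2 ^ T * 3 ^ m)) / 2 := by
      rw [hH, ← g4, div_div, mul_comm (3 ^ (k + m) : ℝ) 2]
      apply div_le_div_of_nonneg_right _ (by positivity)
      have : 0 ≤ R := by rw [hR]; positivity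
      linarith
    have hHlow : 0.45 * E ^ 3 ≤ H := by
      have h1 : 0.45 * (L T / 3 ^ (k + m)) ≤ H := by
        rw [hH, ← mul_div_assoc, div_le_div_iff₀ (by positivity) (by positivity)]
        have h3 : (0 : ℝ) < 3 ^ (k + m) := by positivity
        have h4 : 0.9 * L T ≤ 2 * L T - R - L T := by linarith
        have := mul_le_mul_of_nonneg_right h4 h3.le
        linarith
      have := mul_le_mul_of_nonneg_left g1 (by norm_num : (0 : ℝ) ≤ 0.45)
      linarith
    have hEH : E ≤ H := by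
      refine le_trans ?_ hHlow
      have : E ^ 3 = E * (E * E) := by ring
      rw [this]
      have h5 : 160000 ≤ E * E := by nlinarith
      nlinarith
    have hH4 : 4 ≤ H := by linarith
    have hlogH : t / 4 ≤ Real.log H := by
      rw [Real.le_log_iff_exp_le (by linarith)]; exact hEH
    have hlogH0 : 0 < Real.log H := by linarith
    have hK : ∀ r : ℤ, ∑ x ∈ (W T).filter (fun x => (3 : ℤ) ^ (k + m) ∣ 2 ^ T * x - r), |Ψ x| ≤
        Cb * (H / Real.log H) := by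
      intro r
      refine le_trans ?_ (hbt (L T) (2 * L T - R) (k + m) T r (by omega) hH4)
      have h1 : ∀ x, |Ψ x| = Ψ x := fun x => abs_of_nonneg (hΨ0 x)
      rw [hW]
      simp only [h1]
      rw [filter_filter, hΨ]
      simp only
      rw [sum_boole, filter_filter]
      norm_cast
      apply card_le_card
      intro x hx
      simp only [mem_filter] at hx ⊢
      exact ⟨hx.1, hx.2.1.1, hx.2.1.2, hP.prime x hx.2.2⟩
    have hmix := (abs_le.1 (mixN (3 * k) k m m' T hm'k c hK)).1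
    have hdev0 : 0 ≤ dev (FWT (3 * k) k T) wwt (fun w => (Wo w : ℤ)) (k + m) m' :=
      sum_nonneg fun _ _ => abs_nonneg _
    have hκT : 2 ^ T * (Cb * (H / Real.log H)) ≤ κ := by
      have h1 : H / Real.log H ≤ (A / (2 ^ T * 3 ^ m)) / 2 / (t / 4) :=
        div_le_div₀ (by positivity) hHup (by positivity) hlogH
      calc (2 : ℝ) ^ T * (Cb * (H / Real.log H)) ≤ 2 ^ T * (Cb * ((A / (2 ^ T * 3 ^ m)) / 2 / (t / 4))) := by
            apply mul_le_mul_of_nonneg_left _ (by positivity)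
            exact mul_le_mul_of_nonneg_left h1 (by linarith)
        _ = κ := by rw [hκ]; field_simp; ring
    have hκd := mul_le_mul_of_nonneg_right hκT hdev0
    have hmain : ∑ w ∈ FWT (3 * k) k T, g w ≤
        (∑ w ∈ FWT (3 * k) k T, ∑ x ∈ (W T).filter (fun x => (3 : ℤ) ^ m' ∣ 2 ^ T * x + Wo w), Ψ x)
          / 3 ^ (k + m - m') := by
      rw [sum_div]
      apply sum_le_sum
      intro w hw
      have hwT := hsum w hw
      have hwF : w ∈ FW (3 * k) k := by unfold FWT at hw; exact (mem_filter.1 hw).1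
      have hne : w ≠ [] := by
        rintro rfl
        have := (FW_props hwF).1
        simp at this; omega
      rw [hg]
      simp only
      rw [hwT]
      split_ifs with hcond
      swap
      · exact div_nonneg (sum_nonneg fun x _ => hΨ0 x) (by positivity)
      have hR0 : 0 ≤ R := by rw [hR]; positivity
      have h1 := hpnt (L T - R / 2) (by linarith) (R / 2) (by linarith) T (-(Wo w : ℤ))
        (by rw [dvd_neg]; exact Wo_mod3 hne) (by
          rw [show (2 : ℤ) ^ T * a - -(Wo w : ℤ) = -(2 ^ T * -a - Wo w) by ring, dvd_neg]; exact hcond)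
        ((Ico ⌈L T⌉ ⌈2 * L T - R⌉).filter (fun x => Odd x ∧ (3 : ℤ) ^ m' ∣ 2 ^ T * x + Wo w ∧ P x)) (by
          intro x
          rw [mem_filter, mem_win]
          rw [show L T - R / 2 + R / 2 = L T by ring, show 2 * (L T - R / 2) = 2 * L T - R by ring,
            show (2 : ℤ) ^ T * x - -(Wo w : ℤ) = 2 ^ T * x + Wo w by ring])
      have h2 : (((Ico ⌈L T⌉ ⌈2 * L T - R⌉).filter (fun x => Odd x ∧ (3 : ℤ) ^ m' ∣ 2 ^ T * x + Wo w ∧ P x)).card : ℝ)
          = ∑ x ∈ (W T).filter (fun x => (3 : ℤ) ^ m' ∣ 2 ^ T * x + Wo w), Ψ x := by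
        rw [hW]
        simp only
        rw [filter_filter, hΨ]
        simp only
        rw [sum_boole, filter_filter]
        congr 2
        ext x
        simp only [mem_filter, and_assoc]
      rw [← h2, le_div_iff₀ (by positivity)]
      refine le_trans ?_ h1
      have hL'pos : 0 < L T - R / 2 := by linarith
      have hlogL : Real.log (L T - R / 2) ≤ t := Real.log_le_log hL'pos (by linarith)
      have hlogL0 : 0 < Real.log (L T - R / 2) := Real.log_pos (by linarith)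
      have e2 : wwt w = 1 / 2 ^ T := by unfold wwt; rw [hwT, one_div_pow]
      have e3 : (3 : ℝ) ^ (k + m - m') * 3 ^ m' = 3 ^ (k + m) := by
        rw [← pow_add]; congr 1; omega
      have e4 : κ0 * ((A / 3 ^ m) / t) * wwt w * 3 ^ (k + m - m')
          = κ0 * (L T / (3 ^ m' * t)) := by
        rw [e2, hL]
        simp only
        have : (3 : ℝ) ^ (k + m - m') = 3 ^ (k + m) / 3 ^ m' := by
          rw [← e3]; field_simp
        rw [this, pow_add]
        field_simp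
      rw [e4, hκ01]
      have e5 : 0.9 * κ1 * (L T / (3 ^ m' * t)) = κ1 * ((0.9 * L T) / (3 ^ m' * t)) := by ring
      rw [e5]
      apply mul_le_mul_of_nonneg_left _ hκ1.le
      apply div_le_div₀ hL'pos.le (by linarith) (by positivity)
      exact mul_le_mul_of_nonneg_left hlogL (by positivity)
    linarith
  refine le_trans ?_ (sum_le_sum step3)
  rw [sum_sub_distrib, ← mul_sum]
  have hmass' := hmass k hk25 ((GT k).filter (fun w => (3 : ℤ) ^ v ∣ 2 ^ w.sum * -a - Wo w)) (by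
    intro w; rw [mem_filter])
  have e5 : ∑ T ∈ Icc ((39 * k + 19) / 20) (41 * k / 20), ∑ w ∈ FWT (3 * k) k T, g w
      = κ0 * ((A / 3 ^ m) / t) * ∑ w ∈ (GT k).filter (fun w => (3 : ℤ) ^ v ∣ 2 ^ w.sum * -a - Wo w), wwt w := by
    rw [← sum_GW, mul_sum, sum_filter]
    rfl
  rw [e5]
  have hd1 := hdev k m m' (3 * k) hk0 hm'1 hm'k hmk le_rfl
  rw [pow_one] at hd1
  have hd2 : ∑ T ∈ Icc ((39 * k + 19) / 20) (41 * k / 20), dev (FWT (3 * k) k T) wwt (fun w => (Wo w : ℤ)) (k + m) m'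
      ≤ Cd * (1 / m') := by
    refine le_trans ?_ hd1
    apply sum_le_sum_of_subset_of_nonneg
    · intro T hT
      have := hTT T hT
      rw [mem_range]
      nlinarith
    · intro T _ _; exact sum_nonneg fun _ _ => abs_nonneg _
  have hm'R : (0 : ℝ) < m' := by exact_mod_cast hm'1
  have hX : 0 < (A / 3 ^ m) / t := by positivity
  have h1 : κ * (Cd * (1 / m')) ≤ (κ0 * μ / 2) * ((A / 3 ^ m) / t) := by
    have : κ * (Cd * (1 / m')) = (2 * Cb * Cd / m') * ((A / 3 ^ m) / t) := by rw [hκ]; ring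
    rw [this]
    apply mul_le_mul_of_nonneg_right _ hX.le
    rw [div_le_iff₀ hm'R]
    rw [div_le_iff₀ (by positivity)] at hm'2
    linarith
  have h2 := mul_le_mul_of_nonneg_left hd2 hκpos.le
  have h3 := mul_le_mul_of_nonneg_left hmass' (by positivity : 0 ≤ κ0 * ((A / 3 ^ m) / t))
  linarith

end Pool.Agent.H48N
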