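import Pool.Agent.H48C.Scale
import Pool.Agent.H48N.SM
import Pool.Agent.H499R2.NDEqui

/-! Primes in trajectories of negative integers, part I: all scales. -/

set_option autoImplicit false

namespace Pool.Agent.H48N

open Finset Filter Pool.Agent.H320R2.PD Pool.Agent.H499R2.ND
open Pool.Agent.H48C (PrZ PrZ.pos GT mem_GT size_bound Thick)

/-- the trajectory of `M` has a term with the property `P` in `[y1, y2)` -/
def Hit (P : ℤ → Prop) (y1 y2 : ℝ) (M : ℤ) : Prop :=
  ∃ k : ℕ, P (Syr^[k] M) ∧ y1 ≤ ((Syr^[k] M : ℤ) : ℝ) ∧ ((Syr^[k] M : ℤ) : ℝ) < y2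

/-- the starting points that miss -/
def Miss (P : ℤ → Prop) (y1 y2 : ℝ) : Set ℤ := {M | ¬ Hit P y1 y2 M}

theorem Syr_eq {M x : ℤ} {e : ℕ} (hM : Odd M) (hx : Odd x) (h : 3 * M - 1 = 2 ^ e * x) : Syr M = x := by
  obtain ⟨h1, h2, _⟩ := Syr_spec hM
  rw [h] at h1
  exact (pow_two_unique h1 hx h2).2.symm

theorem miss_fwd (P : ℤ → Prop) (y1 y2 : ℝ) : Fwd (-1) (Miss P y1 y2) := by
  intro M x e _ hM hx hMS h
  have h1 := Syr_eq hM hx (by rw [← h]; ring)
  rintro ⟨k, hk⟩
  apply hMS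
  refine ⟨k + 1, ?_⟩
  rw [Function.iterate_succ_apply, h1]
  exact hk

/-- the place of the term -/
theorem place {A : ℝ} (hA : 0 < A) (ht : 1000 ≤ Real.log A) {k : ℕ} (hk : (k : ℝ) ≤ Real.log A / 10)
    {M : ℤ} (hM : Odd M) (h1 : A ≤ M) (h2 : (M : ℝ) < 2 * A) (hw : wrd k M ∈ GT k) :
    Real.exp (0.75 * Real.log A) ≤ ((Syr^[k] M : ℤ) : ℝ) ∧
      ((Syr^[k] M : ℤ) : ℝ) < Real.exp (1.1 * Real.log A) := by
  obtain ⟨g1, g2, g3⟩ := mem_GT.1 hw
  obtain ⟨hl, he⟩ := FW_props g1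
  have hid := wrd_id hM k
  have hidR : (3 : ℝ) ^ k * M - Wo (wrd k M) = 2 ^ (wrd k M).sum * ((Syr^[k] M : ℤ) : ℝ) := by exact_mod_cast hid
  set t := Real.log A with htd
  set T := (wrd k M).sum with hT
  have hexpA : Real.exp t = A := Real.exp_log hA
  have hs := size_bound ht hk (m := 0) (by norm_num; linarith) g3
  rw [pow_zero, mul_one] at hs
  have h2T : (0 : ℝ) < 2 ^ T := by positivity
  have h3k : (1 : ℝ) ≤ 3 ^ k := one_le_pow₀ (by norm_num)
  have hWo0 : (0 : ℝ) ≤ (Wo (wrd k M) : ℝ) := Nat.cast_nonneg _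
  have hWo := Wo_le he
  rw [hl, ← hT] at hWo
  constructor
  · have h4 : Real.exp (0.75 * t) * 2 ^ T ≤ A := by
      calc Real.exp (0.75 * t) * 2 ^ T ≤ Real.exp (0.75 * t) * Real.exp (t / 4) :=
            mul_le_mul_of_nonneg_left hs (Real.exp_pos _).le
        _ = Real.exp (0.75 * t + t / 4) := by rw [Real.exp_add]
        _ = A := by rw [← hexpA]; congr 1; ring
    have h5 : (Wo (wrd k M) : ℝ) ≤ (3 ^ k - 1) * 2 ^ T := by
      rcases Nat.eq_zero_or_pos k with h0 | h0
      · have : wrd k M = [] := by rw [h0]; rfl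
        rw [this, h0]; simp [Wo]
      · refine hWo.trans ?_
        rw [mul_comm]
        apply mul_le_mul_of_nonneg_right _ h2T.le
        have e1 : (3 : ℝ) ^ k = (3 / 2) ^ k * 2 ^ k := by rw [← mul_pow]; norm_num
        have e2 : (1 : ℝ) ≤ (3 / 2) ^ k := one_le_pow₀ (by norm_num)
        have e3 : (2 : ℝ) ^ 1 ≤ 2 ^ k := pow_le_pow_right₀ (by norm_num) h0
        rw [e1]; nlinarith
    have h6 : 2 ^ T ≤ A := by
      have : (1 : ℝ) ≤ Real.exp (0.75 * t) := Real.one_le_exp (by linarith)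
      nlinarith
    have h3 : A ≤ 2 ^ T * ((Syr^[k] M : ℤ) : ℝ) := by
      rw [← hidR]
      have e1 : (3 : ℝ) ^ k * A ≤ 3 ^ k * M := mul_le_mul_of_nonneg_left h1 (by positivity)
      have e2 : ((3 : ℝ) ^ k - 1) * 2 ^ T ≤ (3 ^ k - 1) * A := mul_le_mul_of_nonneg_left h6 (by linarith)
      linarith
    have h5 : 2 ^ T * Real.exp (0.75 * t) ≤ 2 ^ T * ((Syr^[k] M : ℤ) : ℝ) := by linarith
    exact le_of_mul_le_mul_left h5 h2T
  · have h3T : (3 : ℝ) ^ k ≤ 2 ^ T := by
      have h5 : ((3 : ℝ) ^ k) ^ 20 ≤ (2 ^ T) ^ 20 := by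
        rw [← pow_mul, ← pow_mul]
        calc (3 : ℝ) ^ (k * 20) = (3 ^ 20) ^ k := by rw [← pow_mul, mul_comm]
          _ ≤ (2 ^ 39) ^ k := pow_le_pow_left₀ (by norm_num) (by norm_num) k
          _ = 2 ^ (39 * k) := by rw [← pow_mul]
          _ ≤ 2 ^ (T * 20) := pow_le_pow_right₀ (by norm_num) (by omega)
      exact le_of_pow_le_pow_left₀ (by norm_num) (by positivity) h5
    have h32 : (3 / 2 : ℝ) ^ k ≤ A := by
      have e1 : (3 / 2 : ℝ) ^ k ≤ Real.exp 1 ^ k := by
        apply pow_le_pow_left₀ (by norm_num)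
        have := Real.exp_one_gt_d9
        linarith
      rw [← Real.exp_nat_mul, mul_one] at e1
      refine e1.trans ?_
      rw [← hexpA]
      apply Real.exp_le_exp.2
      linarith
    have h6 : 2 ^ T * ((Syr^[k] M : ℤ) : ℝ) < 2 ^ T * (3 * A) := by
      rw [← hidR]
      have e1 : (3 : ℝ) ^ k * M < 2 ^ T * (2 * A) := by
        calc (3 : ℝ) ^ k * M ≤ 2 ^ T * M := mul_le_mul_of_nonneg_right h3T (by linarith)
          _ < _ := mul_lt_mul_of_pos_left h2 h2T
      have e2 : (Wo (wrd k M) : ℝ) ≤ 2 ^ T * A := by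
        refine hWo.trans ?_
        apply mul_le_mul_of_nonneg_left _ h2T.le
        linarith
      linarith
    have h7 := lt_of_mul_lt_mul_left h6 h2T.le
    refine lt_of_lt_of_le h7 ?_
    have h8 : (3 : ℝ) ≤ Real.exp (0.1 * t) := by
      have := Real.add_one_le_exp (0.1 * t)
      linarith
    calc 3 * A ≤ Real.exp (0.1 * t) * Real.exp t := by rw [hexpA]; exact mul_le_mul_of_nonneg_right h8 hA.le
      _ = Real.exp (1.1 * t) := by rw [← Real.exp_add]; congr 1; ring

/-- one stage: a proportion `β` of the starting points of each class of each window meets `P` early -/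
def OneStage (P : ℤ → Prop) (β : ℝ) : Prop := ∃ t3 : ℝ, 1000 ≤ t3 ∧ ∀ A : ℝ, 0 < A → t3 ≤ Real.log A →
    ∀ (m : ℕ) (c : ℤ), (m : ℝ) ^ 2 ≤ Real.log A → ∀ S : Finset ℤ,
      (∀ M, M ∈ S ↔ M ∈ Ow A (2 * A) m c ∧ ∃ k : ℕ, (k : ℝ) ≤ Real.log A / 10 ∧ Ind P k M) →
    β * (A / (2 * 3 ^ m)) ≤ (S.card : ℝ)

theorem base_miss {P : ℤ → Prop} {β : ℝ} (h : OneStage P β) {η : ℝ} (hη : 0 < η) : ∃ t4 : ℝ, 1000 ≤ t4 ∧
    ∀ lam : ℝ, t4 ≤ lam → ∀ A : ℝ, 0 < A → lam ≤ Real.log A → Real.log A ≤ 1.25 * lam → ∀ m : ℕ,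
      (m : ℝ) ^ 2 ≤ Real.log A →
      PB (Miss P (Real.exp (0.75 * lam)) (Real.exp (1.4 * lam))) A m (1 - β + η) := by
  classical
  obtain ⟨t3, ht3, hs⟩ := h
  refine ⟨max t3 (2 * Real.log (2 / η) + 1000), ht3.trans (le_max_left _ _), ?_⟩
  intro lam hlam A hA hA1 hA2 m hm u v hu
  have h1 : t3 ≤ Real.log A := (le_max_left _ _).trans (hlam.trans hA1)
  have h2 : 2 * Real.log (2 / η) + 1000 ≤ Real.log A := (le_max_right _ _).trans (hlam.trans hA1)
  have h1000 : 1000 ≤ Real.log A := ht3.trans h1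
  obtain ⟨c, hc⟩ := cls_unit (Miss P (Real.exp (0.75 * lam)) (Real.exp (1.4 * lam))) A (2 * A) m hu v
  rw [hc]
  set S := (Ow A (2 * A) m c).filter (fun M => ∃ k : ℕ, (k : ℝ) ≤ Real.log A / 10 ∧ Ind P k M) with hS
  have h3 := hs A hA h1 m c hm S (fun M => by rw [hS, mem_filter])
  have h4 := cls_card_le Set.univ (by linarith : A ≤ 2 * A) m isCoprime_one_left c
  have h5 := cls_compl (Miss P (Real.exp (0.75 * lam)) (Real.exp (1.4 * lam))) A (2 * A) m 1 c
  have hsub : S ⊆ cls (Miss P (Real.exp (0.75 * lam)) (Real.exp (1.4 * lam)))ᶜ A (2 * A) m 1 c := by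
    intro M hM
    rw [hS, mem_filter, mem_Ow] at hM
    obtain ⟨⟨⟨g1, g2⟩, g3, g4⟩, k, hk, hI⟩ := hM
    rw [mem_cls]
    refine ⟨⟨g1, g2⟩, g3, ?_, by rw [one_mul]; exact g4⟩
    rw [Set.mem_compl_iff]
    intro hmiss
    apply hmiss
    obtain ⟨p1, p2⟩ := place hA h1000 hk g3 g1 g2 hI.1
    refine ⟨k, hI.2, ?_, ?_⟩
    · refine le_trans ?_ p1
      apply Real.exp_le_exp.2
      linarith
    · refine lt_of_lt_of_le p2 ?_
      apply Real.exp_le_exp.2
      linarith
  have h6 : (S.card : ℝ) ≤ (cls (Miss P (Real.exp (0.75 * lam)) (Real.exp (1.4 * lam)))ᶜ A (2 * A) m 1 c).card := by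
    exact_mod_cast card_le_card hsub
  have h7 : 1 ≤ η * (A / (2 * 3 ^ m)) := by
    have e1 := pow_m_le h1000 hm
    have e2 : 2 / η ≤ Real.exp (Real.log A / 2) := by
      rw [← Real.log_le_iff_le_exp (by positivity)]; linarith
    have e3 : Real.exp (Real.log A / 2) * Real.exp (0.05 * Real.log A) ≤ A := by
      rw [← Real.exp_add]
      calc _ ≤ Real.exp (Real.log A) := Real.exp_le_exp.2 (by linarith)
        _ = A := Real.exp_log hA
    have e4 : 2 / η * 3 ^ m ≤ A := (mul_le_mul e2 e1 (by positivity) (by positivity)).trans e3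
    rw [div_mul_eq_mul_div, div_le_iff₀ hη] at e4
    rw [← mul_div_assoc, le_div_iff₀ (by positivity)]
    linarith
  have e5 : 2 * A - A = A := by ring
  rw [e5] at h4
  have : (1 - β + η) * (A / (2 * 3 ^ m)) = A / (2 * 3 ^ m) - β * (A / (2 * 3 ^ m)) + η * (A / (2 * 3 ^ m)) := by ring
  rw [this]
  linarith

/-- all scales -/
theorem scale_miss {P : ℤ → Prop} {β : ℝ} (hβ : β ≤ 1) (h : OneStage P β) {η : ℝ} (hη : 0 < η) :
    ∃ lam0 : ℝ, 1000 ≤ lam0 ∧
    ∀ lam : ℝ, lam0 ≤ lam → ∀ A : ℝ, 0 < A → lam ≤ Real.log A → ∀ m : ℕ, (m : ℝ) ^ 2 ≤ Real.log A →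
      PB (Miss P (Real.exp (0.75 * lam)) (Real.exp (1.4 * lam))) A m (1 - β + η) := by
  obtain ⟨t4, ht4, hb⟩ := base_miss h (half_pos hη)
  obtain ⟨C, hC, herr⟩ := err_bound 1 (-1)
  refine ⟨max t4 (40 * C / η), ht4.trans (le_max_left _ _), ?_⟩
  intro lam hlam
  have hl1 : t4 ≤ lam := (le_max_left _ _).trans hlam
  have hl2 : 40 * C / η ≤ lam := (le_max_right _ _).trans hlam
  have hl0 : 1000 ≤ lam := ht4.trans hl1
  have hlpos : 0 < lam := by linarith
  set S := Miss P (Real.exp (0.75 * lam)) (Real.exp (1.4 * lam)) with hSdef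
  have hSf : Fwd (-1) S := miss_fwd _ _ _
  have main : ∀ n : ℕ, ∀ A : ℝ, 0 < A → lam ≤ Real.log A → Real.log A ≤ 1.25 * lam + n → ∀ m : ℕ,
      (m : ℝ) ^ 2 ≤ Real.log A → PB S A m (1 - β + η / 2 + 10 * C * (2 / lam - 1 / Real.log A)) := by
    intro n
    induction n with
    | zero =>
      intro A hA h1 h2 m hm u v hu
      refine (hb lam hl1 A hA h1 (by rw [Nat.cast_zero, add_zero] at h2; exact h2) m hm u v hu).trans ?_
      apply mul_le_mul_of_nonneg_right _ (by positivity)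
      have e1 : 1 / Real.log A ≤ 1 / lam := one_div_le_one_div_of_le hlpos h1
      have e2 : 0 ≤ 2 / lam - 1 / Real.log A := by
        have : 2 / lam = 2 * (1 / lam) := by ring
        have : 0 < 1 / lam := by positivity
        linarith
      have : 0 ≤ 10 * C * (2 / lam - 1 / Real.log A) := by positivity
      linarith
    | succ n ih =>
      intro A hA h1 h2 m hm
      rcases le_or_gt (Real.log A) (1.25 * lam + n) with h3 | h3
      · exact ih A hA h1 h3 m hm
      set t := Real.log A with htdef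
      have hn0 : (0 : ℝ) ≤ n := Nat.cast_nonneg n
      have ht1000 : 1000 ≤ t := by linarith
      have htpos : 0 < t := by linarith
      obtain ⟨k, hk⟩ : ∃ k : ℕ, k = ⌊t / 2⌋₊ := ⟨_, rfl⟩
      obtain ⟨m', hm'⟩ : ∃ m' : ℕ, m' = ⌊Real.sqrt (0.8 * t)⌋₊ := ⟨_, rfl⟩
      have hk2 : t / 2 - 1 ≤ k := by rw [hk]; linarith [Nat.lt_floor_add_one (t / 2)]
      have hk1N : 1 ≤ k := by
        have : (1 : ℝ) ≤ k := by linarith
        exact_mod_cast this
      have hm'sq : (m' : ℝ) ^ 2 ≤ 0.8 * t := by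
        have h1 : (m' : ℝ) ≤ Real.sqrt (0.8 * t) := by
          rw [hm']; exact Nat.floor_le (Real.sqrt_nonneg _)
        calc (m' : ℝ) ^ 2 ≤ (Real.sqrt (0.8 * t)) ^ 2 :=
              pow_le_pow_left₀ (Nat.cast_nonneg _) h1 2
          _ = 0.8 * t := Real.sq_sqrt (by linarith)
      have hm'k : m' ≤ k := by
        have : (m' : ℝ) ≤ k := by
          have h0 : (0 : ℝ) ≤ m' := Nat.cast_nonneg _
          by_contra hcon
          push Not at hcon
          nlinarith
        exact_mod_cast this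
      have hE := herr A hA ht1000 k m m' hm hk hm'
      rw [← htdef, pow_one] at hE
      have hnext : ∀ T : ℕ, 39 * k ≤ 20 * T → 20 * T ≤ 41 * k →
          PB S (A * 3 ^ k / 2 ^ T) m' (1 - β + η / 2 + 10 * C * (2 / lam - 1 / (0.9 * t))) := by
        intro T hT1 hT2
        have hn := next_scale hA ht1000 hk hT1 hT2
        set A' := A * 3 ^ k / 2 ^ T with hA'
        have hA'pos : 0 < A' := by positivity
        have hlow : lam ≤ Real.log A' := by linarith [hn.1]
        have hih := ih A' hA'pos hlow (by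
          have h9 : Real.log A' ≤ 0.9 * t := hn.2
          have h10 : t ≤ 1.25 * lam + (n + 1 : ℕ) := h2
          push_cast at h10
          linarith) m' (by linarith [hn.1])
        intro u v hu
        refine (hih u v hu).trans ?_
        apply mul_le_mul_of_nonneg_right _ (by positivity)
        have h11 : 1 / (0.9 * t) ≤ 1 / Real.log A' :=
          one_div_le_one_div_of_le (by linarith) hn.2
        have := mul_le_mul_of_nonneg_left h11 (by positivity : 0 ≤ 10 * C)
        linarith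
      have hρ : 0 ≤ 1 - β + η / 2 + 10 * C * (2 / lam - 1 / (0.9 * t)) := by
        have e1 : 1 / (0.9 * t) ≤ 1 / lam := one_div_le_one_div_of_le hlpos (by linarith)
        have e2 : 0 ≤ 2 / lam - 1 / (0.9 * t) := by
          have : 2 / lam = 2 * (1 / lam) := by ring
          have : 0 < 1 / lam := by positivity
          linarith
        have : 0 ≤ 10 * C * (2 / lam - 1 / (0.9 * t)) := by positivity
        linarith
      have hst := stage (by decide) (by decide) hSf hA hk1N hm'k (m := m) hρ hnext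
      intro u v hu
      refine (hst u v hu).trans ?_
      apply mul_le_mul_of_nonneg_right _ (by positivity)
      have e1 : 1 / (0.9 * t) = (10 / 9) * (1 / t) := by field_simp; norm_num
      have e2 : C / t = C * (1 / t) := by ring
      have e3 : 0 < C * (1 / t) := by positivity
      rw [e1]
      rw [e2] at hE
      have : 10 * C * (2 / lam - 10 / 9 * (1 / t)) + C * (1 / t) ≤ 10 * C * (2 / lam - 1 / t) := by
        have : 10 * C * (2 / lam - 1 / t) - (10 * C * (2 / lam - 10 / 9 * (1 / t)) + C * (1 / t)) = (1 / 9) * (C * (1 / t)) := by ring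
        linarith
      linarith
  intro A hA h1 m hm u v hu
  obtain ⟨n, hn⟩ := exists_nat_ge (Real.log A - 1.25 * lam)
  refine (main n A hA h1 (by linarith) m hm u v hu).trans ?_
  apply mul_le_mul_of_nonneg_right _ (by positivity)
  have e1 : 0 < 1 / Real.log A := by
    have : 0 < Real.log A := by linarith
    positivity
  have e2 : 10 * C * (2 / lam) ≤ η / 2 := by
    rw [div_le_iff₀ hη] at hl2
    rw [← mul_div_assoc, div_le_iff₀ hlpos]
    linarith
  have e3 : 0 ≤ 10 * C * (1 / Real.log A) := by positivity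
  have e4 : 10 * C * (2 / lam - 1 / Real.log A) = 10 * C * (2 / lam) - 10 * C * (1 / Real.log A) := by ring
  linarith

end Pool.Agent.H48N
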