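import Pool.Agent.H48C.Fin1
import Pool.Agent.H48N.Scale

/-! Primes in trajectories of negative integers, part J: many scales. -/

set_option autoImplicit false

namespace Pool.Agent.H48N

open Finset Filter Pool.Agent.H320R2.PD Pool.Agent.H499R2.ND
open Pool.Agent.H48C (PrZ PrZ.pos GT mem_GT Thick exists_scales log_half)

/-- the trajectory of `M` has a term with the property `P` in the range number `s` -/
def HitS (P : ℤ → Prop) (lam0 : ℝ) (s : ℕ) (M : ℤ) : Prop :=
  Hit P (Real.exp (0.75 * (lam0 * 2 ^ s))) (Real.exp (1.4 * (lam0 * 2 ^ s))) M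

theorem distinct_hits {P : ℤ → Prop} {lam0 : ℝ} (h0 : 0 < lam0) (M : ℤ) (S : Finset ℕ)
    (hS : ∀ s ∈ S, HitS P lam0 s M) : ∃ F : Finset ℤ, F.card = S.card ∧ ∀ x ∈ F, P x ∧ ∃ k, Syr^[k] M = x := by
  classical
  have hex : ∀ s : ℕ, ∃ k : ℕ, s ∈ S → P (Syr^[k] M) ∧
      Real.exp (0.75 * (lam0 * 2 ^ s)) ≤ ((Syr^[k] M : ℤ) : ℝ) ∧
      ((Syr^[k] M : ℤ) : ℝ) < Real.exp (1.4 * (lam0 * 2 ^ s)) := by
    intro s
    by_cases h : s ∈ S
    · obtain ⟨k, hk⟩ := hS s h
      exact ⟨k, fun _ => hk⟩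
    · exact ⟨0, fun h' => absurd h' h⟩
  choose k hk using hex
  have hlt : ∀ s ∈ S, ∀ s' ∈ S, s < s' → Syr^[k s] M < Syr^[k s'] M := by
    intro s hs s' hs' hss
    have h1 := (hk s hs).2.2
    have h2 := (hk s' hs').2.1
    have h3 : (2 : ℝ) ^ (s + 1) ≤ 2 ^ s' := pow_le_pow_right₀ (by norm_num) hss
    have h4 : Real.exp (1.4 * (lam0 * 2 ^ s)) ≤ Real.exp (0.75 * (lam0 * 2 ^ s')) := by
      apply Real.exp_le_exp.2
      rw [pow_succ] at h3
      have h5 : (0 : ℝ) < 2 ^ s := by positivity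
      have h6 := mul_le_mul_of_nonneg_left h3 h0.le
      nlinarith [mul_pos h0 h5]
    exact_mod_cast (h1.trans_le h4).trans_le h2
  refine ⟨S.image (fun s => Syr^[k s] M), ?_, ?_⟩
  · apply card_image_of_injOn
    intro s hs s' hs' hss
    simp only at hss
    rcases lt_trichotomy s s' with h | h | h
    · have := hlt s hs s' hs' h; omega
    · exact h
    · have := hlt s' hs' s hs h; omega
  · intro x hx
    rw [mem_image] at hx
    obtain ⟨s, hs, rfl⟩ := hx
    exact ⟨(hk s hs).1, k s, rfl⟩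

open Classical in
/-- the number of starting points that miss one range -/
theorem miss_card {P : ℤ → Prop} {β : ℝ} (hβ : β ≤ 1) (h : OneStage P β) {η : ℝ} (hη : 0 < η) :
    ∃ lam0 : ℝ, 1000 ≤ lam0 ∧ ∀ A : ℝ, 0 < A → ∀ s : ℕ, lam0 * 2 ^ s ≤ Real.log A →
      (((Ow A (2 * A) 0 0).filter (fun M => ¬ HitS P lam0 s M)).card : ℝ) ≤ (1 - β + η) * (A / 2) := by
  obtain ⟨lam0, hlam0, hs⟩ := scale_miss hβ h hη
  refine ⟨lam0, hlam0, fun A hA s hsA => ?_⟩
  have h2s : (1 : ℝ) ≤ 2 ^ s := one_le_pow₀ (by norm_num)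
  have h1 := hs (lam0 * 2 ^ s) (by nlinarith) A hA hsA 0 (by
    norm_num
    nlinarith) 1 0 isCoprime_one_left
  rw [pow_zero, mul_one] at h1
  refine le_trans (Nat.cast_le.2 (card_le_card ?_)) h1
  intro M hM
  rw [mem_filter, mem_Ow] at hM
  rw [mem_cls]
  exact ⟨hM.1.1, hM.1.2.1, hM.2, by rw [pow_zero]; exact one_dvd _⟩

open Classical in
/-- many ranges for a positive proportion -/
theorem many {P : ℤ → Prop} {β : ℝ} (hβ0 : 0 < β) (hβ : β ≤ 1) (h : OneStage P β) :
    ∃ N0 : ℕ, ∀ N : ℕ, N0 ≤ N →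
      β / 16 * N ≤ (((Ow ((N : ℝ) / 2) N 0 0).filter (fun M => ∃ F : Finset ℤ,
        β / 8 * Real.log (Real.log N) ≤ F.card ∧ ∀ x ∈ F, P x ∧ ∃ k, Syr^[k] M = x)).card : ℝ) := by
  obtain ⟨lam0, hlam0, hm⟩ := miss_card hβ h (by positivity : 0 < β / 4)
  obtain ⟨N1, hN13, hN1⟩ := exists_scales lam0 hlam0
  refine ⟨max (2 * N1) (max 100 ⌈32 / β⌉₊), fun N hN => ?_⟩
  have hNN1 : 2 * N1 ≤ N := (le_max_left _ _).trans hN
  have hN100 : 100 ≤ N := (le_max_left _ _).trans ((le_max_right _ _).trans hN)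
  have hNβ : ⌈32 / β⌉₊ ≤ N := (le_max_right _ _).trans ((le_max_right _ _).trans hN)
  have hNβR : 32 / β ≤ N := (Nat.le_ceil _).trans (by exact_mod_cast hNβ)
  have hNN1R : 2 * (N1 : ℝ) ≤ N := by exact_mod_cast hNN1
  have hN100R : (100 : ℝ) ≤ N := by exact_mod_cast hN100
  set A : ℝ := (N : ℝ) / 2 with hA
  have h2A : (N : ℝ) = 2 * A := by rw [hA]; ring
  have hA0 : 0 < A := by rw [hA]; linarith
  obtain ⟨r, hr1, hr2, hr3⟩ := hN1 A (by rw [hA]; linarith)
  have hrR : (1 : ℝ) ≤ r := by exact_mod_cast hr1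
  rw [h2A]
  set O := Ow A (2 * A) 0 0 with hO
  have hOcls : O = cls Set.univ A (2 * A) 0 1 0 := by
    ext M
    rw [hO, mem_Ow, mem_cls]
    simp
  have hO1 : A / 2 - 1 ≤ (O.card : ℝ) := by
    have := le_cls_univ A (2 * A) 0 isCoprime_one_left (0 : ℤ)
    rw [← hOcls] at this
    refine le_trans (le_of_eq ?_) this
    ring
  have hO2 : (O.card : ℝ) ≤ A := by
    have := cls_card_le Set.univ (by linarith : A ≤ 2 * A) 0 isCoprime_one_left (0 : ℤ)
    rw [← hOcls] at this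
    have e1 : (2 * A - A) / (2 * 3 ^ 0) + 1 = A / 2 + 1 := by ring
    rw [e1] at this
    rw [hA] at this ⊢
    linarith
  set Z : ℤ → ℕ := fun M => ((range r).filter (fun s => HitS P lam0 s M)).card with hZ
  have hZr : ∀ M, (Z M : ℝ) ≤ r := by
    intro M
    rw [hZ]
    simp only
    have := card_filter_le (range r) (fun s => HitS P lam0 s M)
    rw [card_range] at this
    exact_mod_cast this
  have hsum : (r : ℝ) * (β * A / 4) ≤ ∑ M ∈ O, (Z M : ℝ) := by
    have h1 : ∑ M ∈ O, (Z M : ℝ) = ∑ s ∈ range r, ((O.filter (fun M => HitS P lam0 s M)).card : ℝ) := by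
      rw [hZ]
      simp only [card_filter]
      push_cast
      rw [sum_comm]
    rw [h1]
    have h2 : ∀ s ∈ range r, β * A / 4 ≤ ((O.filter (fun M => HitS P lam0 s M)).card : ℝ) := by
      intro s hs
      rw [mem_range] at hs
      have h3 := hm A hA0 s (le_trans (mul_le_mul_of_nonneg_left
        (pow_le_pow_right₀ (by norm_num) hs.le) (by linarith)) hr2)
      have h4 := card_filter_add_card_filter_not (s := O) (fun M => HitS P lam0 s M)
      have h4R : ((O.filter (fun M => HitS P lam0 s M)).card : ℝ)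
          + ((O.filter (fun M => ¬ HitS P lam0 s M)).card : ℝ) = O.card := by exact_mod_cast h4
      rw [← hO] at h3
      have h5 : 8 ≤ β * A := by
        rw [div_le_iff₀ hβ0] at hNβR
        rw [hA]; linarith
      have h6 : (1 - β + β / 4) * (A / 2) = A / 2 - 3 * (β * A) / 8 := by ring
      rw [h6] at h3
      linarith
    have h7 := sum_le_sum h2
    rw [sum_const, card_range, nsmul_eq_mul] at h7
    exact h7
  set G := O.filter (fun M => β / 8 * r ≤ (Z M : ℝ)) with hG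
  have hsum2 : ∑ M ∈ O, (Z M : ℝ) ≤ r * G.card + (β / 8 * r) * A := by
    rw [← sum_filter_add_sum_filter_not O (fun M => β / 8 * r ≤ (Z M : ℝ))]
    apply add_le_add
    · calc ∑ M ∈ O.filter (fun M => β / 8 * r ≤ (Z M : ℝ)), (Z M : ℝ) ≤ ∑ M ∈ G, (r : ℝ) :=
            sum_le_sum fun M _ => hZr M
        _ = _ := by rw [sum_const, nsmul_eq_mul, mul_comm]
    · calc ∑ M ∈ O.filter (fun M => ¬ β / 8 * r ≤ (Z M : ℝ)), (Z M : ℝ)
          ≤ ∑ M ∈ O.filter (fun M => ¬ β / 8 * r ≤ (Z M : ℝ)), (β / 8 * r) := by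
            apply sum_le_sum
            intro M hM
            exact (not_le.1 (mem_filter.1 hM).2).le
        _ = ((O.filter (fun M => ¬ β / 8 * r ≤ (Z M : ℝ))).card : ℝ) * (β / 8 * r) := by
            rw [sum_const, nsmul_eq_mul]
        _ ≤ A * (β / 8 * r) := by
            apply mul_le_mul_of_nonneg_right _ (by positivity)
            refine le_trans ?_ hO2
            exact_mod_cast card_filter_le _ _
        _ = _ := by ring
  have hGc : β * A / 8 ≤ G.card := by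
    have h8 : (r : ℝ) * (β * A / 8) ≤ r * G.card := by
      have e1 : (β / 8 * r) * A = r * (β * A / 8) := by ring
      have e2 : (r : ℝ) * (β * A / 4) = r * (β * A / 8) + r * (β * A / 8) := by ring
      rw [e1] at hsum2
      rw [e2] at hsum
      linarith
    exact le_of_mul_le_mul_left h8 (by linarith)
  have hsub : G ⊆ O.filter (fun M => ∃ F : Finset ℤ,
        β / 8 * Real.log (Real.log (2 * A)) ≤ F.card ∧ ∀ x ∈ F, P x ∧ ∃ k, Syr^[k] M = x) := by
    intro M hM
    rw [hG, mem_filter] at hM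
    rw [mem_filter]
    refine ⟨hM.1, ?_⟩
    obtain ⟨F, hF1, hF2⟩ := distinct_hits (P := P) (lam0 := lam0) (by linarith) M
      ((range r).filter (fun s => HitS P lam0 s M)) (fun s hs => (mem_filter.1 hs).2)
    refine ⟨F, ?_, hF2⟩
    rw [hF1]
    refine le_trans ?_ hM.2
    apply mul_le_mul_of_nonneg_left _ (by positivity)
    have := log_half hN100R
    rw [← hA, h2A] at this
    linarith
  have hfin : (G.card : ℝ) ≤ ((O.filter (fun M => ∃ F : Finset ℤ,
        β / 8 * Real.log (Real.log (2 * A)) ≤ F.card ∧ ∀ x ∈ F, P x ∧ ∃ k, Syr^[k] M = x)).card : ℝ) := by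
    exact_mod_cast card_le_card hsub
  refine le_trans ?_ hfin
  linarith

open Classical in
/-- half of the ranges for almost all starting points -/
theorem most {P : ℤ → Prop} {ε : ℝ} (hε0 : 0 < ε) (h : OneStage P (1 - ε)) :
    ∃ N0 : ℕ, ∀ A : ℝ, (N0 : ℝ) ≤ A →
      (((Ow A (2 * A) 0 0).filter (fun M => ¬ ∃ F : Finset ℤ,
        1 / 2 * Real.log (Real.log A) ≤ F.card ∧ ∀ x ∈ F, P x ∧ ∃ k, Syr^[k] M = x)).card : ℝ) ≤ 2 * ε * A := by
  obtain ⟨lam0, hlam0, hm⟩ := miss_card (by linarith : 1 - ε ≤ 1) h hε0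
  obtain ⟨N1, hN13, hN1⟩ := exists_scales lam0 hlam0
  refine ⟨N1, fun A hAN => ?_⟩
  have hA0 : 0 < A := by
    have : (3 : ℝ) ≤ N1 := by exact_mod_cast hN13
    linarith
  obtain ⟨r, hr1, hr2, hr3⟩ := hN1 A hAN
  have hrR : (1 : ℝ) ≤ r := by exact_mod_cast hr1
  set O := Ow A (2 * A) 0 0 with hO
  set Z : ℤ → ℕ := fun M => ((range r).filter (fun s => ¬ HitS P lam0 s M)).card with hZ
  have hsum : ∑ M ∈ O, (Z M : ℝ) ≤ (r : ℝ) * (ε * A) := by
    have h1 : ∑ M ∈ O, (Z M : ℝ) = ∑ s ∈ range r, ((O.filter (fun M => ¬ HitS P lam0 s M)).card : ℝ) := by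
      rw [hZ]
      simp only [card_filter]
      push_cast
      rw [sum_comm]
    rw [h1]
    have h2 : ∀ s ∈ range r, ((O.filter (fun M => ¬ HitS P lam0 s M)).card : ℝ) ≤ ε * A := by
      intro s hs
      rw [mem_range] at hs
      have h3 := hm A hA0 s (le_trans (mul_le_mul_of_nonneg_left
        (pow_le_pow_right₀ (by norm_num) hs.le) (by linarith)) hr2)
      rw [← hO] at h3
      refine h3.trans (le_of_eq ?_)
      ring
    have h7 := sum_le_sum h2
    rw [sum_const, card_range, nsmul_eq_mul] at h7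
    exact h7
  set G := O.filter (fun M => ¬ ∃ F : Finset ℤ,
        1 / 2 * Real.log (Real.log A) ≤ F.card ∧ ∀ x ∈ F, P x ∧ ∃ k, Syr^[k] M = x) with hG
  have hGZ : ∀ M ∈ G, (r : ℝ) / 2 ≤ Z M := by
    intro M hM
    rw [hG, mem_filter] at hM
    by_contra hcon
    push Not at hcon
    apply hM.2
    obtain ⟨F, hF1, hF2⟩ := distinct_hits (P := P) (lam0 := lam0) (by linarith) M
      ((range r).filter (fun s => HitS P lam0 s M)) (fun s hs => (mem_filter.1 hs).2)
    refine ⟨F, ?_, hF2⟩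
    rw [hF1]
    have h4 := card_filter_add_card_filter_not (s := range r) (fun s => HitS P lam0 s M)
    rw [card_range] at h4
    have h4R : (((range r).filter (fun s => HitS P lam0 s M)).card : ℝ) + (Z M : ℝ) = r := by
      rw [hZ]; exact_mod_cast h4
    linarith
  have h5 : (G.card : ℝ) * (r / 2) ≤ ∑ M ∈ O, (Z M : ℝ) := by
    calc (G.card : ℝ) * (r / 2) = ∑ M ∈ G, (r : ℝ) / 2 := by rw [sum_const, nsmul_eq_mul]
      _ ≤ ∑ M ∈ G, (Z M : ℝ) := sum_le_sum hGZ
      _ ≤ _ := sum_le_sum_of_subset_of_nonneg (filter_subset _ _) fun M _ _ => Nat.cast_nonneg _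
  have h6 : (r : ℝ) * G.card ≤ r * (2 * ε * A) := by nlinarith
  exact le_of_mul_le_mul_left h6 (by linarith)

end Pool.Agent.H48N
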